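import Mathlib

/-!
# Cocyclic sign matrices have a constant row 4-profile

If `H i j = r i * s j * ψ (σ i) (τ j)` for a `±1` cocycle `ψ` on a group `G`, then the group acts
transitively on the rows of `H` by signed permutations, so
`i ↦ ∑ i₂ i₃ i₄, (∑ j, H i j * H i₂ j * H i₃ j * H i₄ j) ^ 4` is constant.
-/

set_option autoImplicit false

namespace Pool.Agent.H652R3

/-- The fourth-power row profile of a matrix. -/
def rowProfile {ι : Type} [Fintype ι] (H : ι → ι → ℤ) (i : ι) : ℤ :=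
  ∑ a : ι, ∑ b : ι, ∑ c : ι, (∑ j : ι, H i j * H a j * H b j * H c j) ^ 4

lemma pm_mul_self {x : ℤ} (h : x = 1 ∨ x = -1) : x * x = 1 := by
  rcases h with h | h <;> subst h <;> norm_num

lemma pm_mul {x y : ℤ} (hx : x = 1 ∨ x = -1) (hy : y = 1 ∨ y = -1) : x * y = 1 ∨ x * y = -1 := by
  rcases hx with h | h <;> rcases hy with h' | h' <;> subst h <;> subst h' <;> norm_num

theorem rowProfile_const {ι : Type} [Fintype ι] (H : ι → ι → ℤ)
    {G : Type} [Group G] (ψ : G → G → ℤ) (σ τ : ι ≃ G) (r s : ι → ℤ)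
    (hψ : ∀ g h : G, ψ g h = 1 ∨ ψ g h = -1)
    (hc : ∀ g h k : G, ψ g h * ψ (g * h) k = ψ g (h * k) * ψ h k)
    (hr : ∀ i, r i = 1 ∨ r i = -1) (hs : ∀ j, s j = 1 ∨ s j = -1)
    (hH : ∀ i j, H i j = r i * s j * ψ (σ i) (τ j)) (i₀ i₁ : ι) :
    rowProfile H i₀ = rowProfile H i₁ := by
  classical
  set g : G := (σ i₀)⁻¹ * σ i₁ with hg
  let π : ι ≃ ι := (σ.trans (Equiv.mulRight g)).trans σ.symm
  let ρ : ι ≃ ι := (τ.trans (Equiv.mulLeft g⁻¹)).trans τ.symm
  have hπ : ∀ i, σ (π i) = σ i * g := fun i => by simp [π]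
  have hρ : ∀ j, τ (ρ j) = g⁻¹ * τ j := fun j => by simp [ρ]
  have hπ0 : π i₀ = i₁ := by
    apply σ.injective
    rw [hπ, hg]
    group
  -- signs
  let ε : ι → ℤ := fun i => r (π i) * r i * ψ (σ i) g
  let δ : ι → ℤ := fun j => s (ρ j) * s j * ψ g (g⁻¹ * τ j)
  have hε : ∀ i, ε i = 1 ∨ ε i = -1 := fun i => pm_mul (pm_mul (hr _) (hr _)) (hψ _ _)
  have hδ : ∀ j, δ j = 1 ∨ δ j = -1 := fun j => pm_mul (pm_mul (hs _) (hs _)) (hψ _ _)
  have key : ∀ i j, H (π i) (ρ j) = ε i * δ j * H i j := by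
    intro i j
    have h1 := hc (σ i) g (g⁻¹ * τ j)
    rw [mul_inv_cancel_left] at h1
    have h2 : ψ (σ i * g) (g⁻¹ * τ j) = ψ (σ i) g * (ψ (σ i) (τ j) * ψ g (g⁻¹ * τ j)) := by
      have h3 := pm_mul_self (hψ (σ i) g)
      linear_combination (ψ (σ i) g) * h1 - ψ (σ i * g) (g⁻¹ * τ j) * h3
    rw [hH, hH, hπ, hρ, h2]
    have e1 := pm_mul_self (hr i)
    have e2 := pm_mul_self (hs j)
    simp only [ε, δ]
    calc r (π i) * s (ρ j) * (ψ (σ i) g * (ψ (σ i) (τ j) * ψ g (g⁻¹ * τ j)))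
        = r (π i) * s (ρ j) * (ψ (σ i) g * (ψ (σ i) (τ j) * ψ g (g⁻¹ * τ j)))
            * (r i * r i) * (s j * s j) := by rw [e1, e2]; ring
      _ = _ := by ring
  have hP : ∀ a b c d : ι,
      (∑ j : ι, H (π a) j * H (π b) j * H (π c) j * H (π d) j) ^ 4
        = (∑ j : ι, H a j * H b j * H c j * H d j) ^ 4 := by
    intro a b c d
    have e : (∑ j : ι, H (π a) j * H (π b) j * H (π c) j * H (π d) j)
        = (ε a * ε b * (ε c * ε d)) * ∑ j : ι, H a j * H b j * H c j * H d j := by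
      rw [← Equiv.sum_comp ρ, Finset.mul_sum]
      refine Finset.sum_congr rfl fun j _ => ?_
      rw [key, key, key, key]
      have e4 := pm_mul_self (hδ j)
      calc ε a * δ j * H a j * (ε b * δ j * H b j) * (ε c * δ j * H c j) * (ε d * δ j * H d j)
          = (ε a * ε b * (ε c * ε d)) * (H a j * H b j * H c j * H d j)
              * (δ j * δ j) * (δ j * δ j) := by ring
        _ = _ := by rw [e4]; ring
    rw [e, mul_pow]
    have hsg : (ε a * ε b * (ε c * ε d)) ^ 4 = 1 := by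
      have := pm_mul_self (pm_mul (pm_mul (hε a) (hε b)) (pm_mul (hε c) (hε d)))
      calc (ε a * ε b * (ε c * ε d)) ^ 4
          = ((ε a * ε b * (ε c * ε d)) * (ε a * ε b * (ε c * ε d)))
            * ((ε a * ε b * (ε c * ε d)) * (ε a * ε b * (ε c * ε d))) := by ring
        _ = 1 := by rw [this]; norm_num
    rw [hsg, one_mul]
  unfold rowProfile
  rw [← hπ0]
  rw [← Equiv.sum_comp π (fun a => ∑ b : ι, ∑ c : ι,
    (∑ j : ι, H (π i₀) j * H a j * H b j * H c j) ^ 4)]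
  refine Finset.sum_congr rfl fun a _ => ?_
  rw [← Equiv.sum_comp π (fun b => ∑ c : ι,
    (∑ j : ι, H (π i₀) j * H (π a) j * H b j * H c j) ^ 4)]
  refine Finset.sum_congr rfl fun b _ => ?_
  rw [← Equiv.sum_comp π (fun c =>
    (∑ j : ι, H (π i₀) j * H (π a) j * H (π b) j * H c j) ^ 4)]
  refine Finset.sum_congr rfl fun c _ => ?_
  rw [hP]

end Pool.Agent.H652R3
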