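import Mathlib

/-!
# Computing in the field with 512 elements

`GaloisField 2 9` contains a root of `X ^ 9 + X ^ 4 + 1`, which is a primitive element; its powers are
tabulated as 9-bit numbers.
-/

set_option autoImplicit false

namespace Pool.Agent.H652R3.GF512

open Polynomial

/-- the field with 512 elements -/
abbrev K := GaloisField 2 9

lemma sq_step {R : Type*} [CommRing R] (f x r r' q : R) (n m : ℕ) (hm : m = 2 * n)
    (h : f ∣ x ^ n - r) (h' : r * r = r' + f * q) :
    f ∣ x ^ m - r' := by
  obtain ⟨s, hs⟩ := h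
  refine ⟨s * (x ^ n + r) + q, ?_⟩
  subst hm
  calc x ^ (2 * n) - r' = (x ^ n - r) * (x ^ n + r) + (r * r - r') := by ring
    _ = (f * s) * (x ^ n + r) + f * q := by rw [hs, h']; ring
    _ = _ := by ring

lemma two_eq_zero : (2 : K[X]) = 0 := by
  have h : ((2 : ℕ) : K[X]) = 0 := CharP.cast_eq_zero _ 2
  exact_mod_cast h

set_option maxRecDepth 20000 in
lemma dvd_aux : (X ^ 9 + X ^ 4 + 1 : K[X]) ∣ X ^ 512 - X := by
  have hT := two_eq_zero
  have h0 : (X ^ 9 + X ^ 4 + 1 : K[X]) ∣ X ^ 1 - X := by simp
  have h1 := sq_step _ _ _ (X^2 : K[X]) (0) 1 2 rfl h0 (by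
    linear_combination (0) * hT)
  have h2 := sq_step _ _ _ (X^4 : K[X]) (0) 2 4 rfl h1 (by
    linear_combination (0) * hT)
  have h3 := sq_step _ _ _ (X^8 : K[X]) (0) 4 8 rfl h2 (by
    linear_combination (0) * hT)
  have h4 := sq_step _ _ _ (X^2 + X^6 + X^7 : K[X]) (X^2 + X^7) 8 16 rfl h3 (by
    linear_combination (-X^2 - X^6 - X^7 - X^11) * hT)
  have h5 := sq_step _ _ _ (1 + X^3 + X^5 + X^7 : K[X]) (1 + X^3 + X^5) 16 32 rfl h4 (by
    linear_combination (-1 - X^3 - X^5 - X^7 + X^8 + X^13) * hT)
  have h6 := sq_step _ _ _ (X + X^4 + X^6 : K[X]) (1 + X + X^5) 32 64 rfl h5 (by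
    linear_combination (-X + X^3 - X^4 + X^7 + X^8 - X^9 + X^10 + X^12) * hT)
  have h7 := sq_step _ _ _ (X^2 + X^3 + X^7 + X^8 : K[X]) (X^3) 64 128 rfl h6 (by
    linear_combination (-X^3 + X^5 + X^10) * hT)
  have h8 := sq_step _ _ _ (1 + X^2 + X^5 + X^7 : K[X]) (1 + X^2 + X^5 + X^7) 128 256 rfl h7 (by
    linear_combination (-1 - X^2 - X^7 + 2*X^10 + X^15) * hT)
  have h9 := sq_step _ _ _ (X : K[X]) (1 + X + X^5) 256 512 rfl h8 (by
    linear_combination (-X + X^2 + 2*X^7 + X^12) * hT)
  exact h9

lemma natCard : Nat.card K = 512 := by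
  rw [GaloisField.card 2 9 (by norm_num)]; norm_num

theorem exists_root : ∃ α : K, α ^ 9 + α ^ 4 + 1 = 0 := by
  have h1 : Splits (X ^ (Nat.card K) - X : K[X]) := Polynomial.splits_X_pow_nat_card_sub_X
  rw [natCard] at h1
  have hne : (X ^ 512 - X : K[X]) ≠ 0 := FiniteField.X_pow_card_sub_X_ne_zero K (by norm_num)
  have h2 : Splits (X ^ 9 + X ^ 4 + 1 : K[X]) := h1.of_dvd hne dvd_aux
  have hd : (X ^ 9 + X ^ 4 + 1 : K[X]).degree = 9 := by compute_degree!
  obtain ⟨a, ha⟩ := h2.exists_eval_eq_zero (by rw [hd]; norm_num)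
  exact ⟨a, by simpa using ha⟩

/-- chosen root -/
noncomputable def α : K := exists_root.choose

lemma α_spec : α ^ 9 + α ^ 4 + 1 = 0 := exists_root.choose_spec

lemma two_K : (2 : K) = 0 := by
  have h : ((2 : ℕ) : K) = 0 := CharP.cast_eq_zero _ 2
  exact_mod_cast h

lemma α_ne_zero : α ≠ 0 := by
  intro h
  have := α_spec
  rw [h] at this
  norm_num at this

lemma α_pow_511 : α ^ 511 = 1 := by
  have : Fintype K := Fintype.ofFinite K
  have hc : Fintype.card K = 512 := by rw [← Nat.card_eq_fintype_card, natCard]
  have := FiniteField.pow_card_sub_one_eq_one α α_ne_zero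
  rwa [hc] at this

/-- the table of powers -/
def big : ℕ := 14115892667700129913177707476975096686789638738236496349950955415377390675994617514732359066125442231869087639299617507580695447401535916559255580876020755245474336539911695349468740164164904274887048337349111293370590255286041210662550571504966135387225899668130841253413906005485271403063214974574096106953277761543655125036619208977096566204572375322980113895369185703661302502964964304147416482645267027060398248854912401521097058331180024827375808734595305578358236841131844958125734413648747428345221760109381081826309657361509053238339314343066381815807826425542755959251109655508531841628520678285043486899468922472807914388375053475954383722276116820029676546768719022154849029276932318001301196426958459575940369647877032547355356035659729640885738609972170143189529647742478195160732557108565506900442629007468785378768997031862905918862868369107123180211007399113816834720643681291943693967100272765801826121793231536221273559751679875867377342284151189675451809137559553292442283916664245644418870870954289751604808896692971368052255243408579294077957474543944458657257173741387974345903273381548050242829034601246455355417487265303818558105794242766157627103867680508951395148789949881390093285331431713668652906316552712201861530169746230070260611661287972270464685044102147009261943740084226452584811808063810578786282208591075150208507846287054085846450897918572364801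

/-- `tbl e` is the bit vector of `α ^ e` for `e < 511` -/
def tbl (e : ℕ) : ℕ := (big >>> (9 * e)) % 512

/-- the element of `K` with given bits -/
noncomputable def φ (v : ℕ) : K := ∑ i ∈ Finset.range 9, if v.testBit i then α ^ i else 0

lemma φ_xor (v w : ℕ) : φ (v ^^^ w) = φ v + φ w := by
  unfold φ
  rw [← Finset.sum_add_distrib]
  refine Finset.sum_congr rfl fun i _ => ?_
  rw [Nat.testBit_xor]
  have h2 := two_K
  cases v.testBit i <;> cases w.testBit i <;> simp
  linear_combination (-α ^ i) * h2

lemma φ_mod (v : ℕ) : φ (v % 512) = φ v := by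
  unfold φ
  refine Finset.sum_congr rfl fun i hi => ?_
  have h512 : (512 : ℕ) = 2 ^ 9 := by norm_num
  rw [h512, Nat.testBit_mod_two_pow]
  simp [Finset.mem_range.mp hi]

lemma φ_double (v : ℕ) : φ (2 * v) + (if v.testBit 8 then φ 17 else 0) = α * φ v := by
  have h17 : φ 17 = α ^ 9 := by
    have h2 := two_K
    have h := α_spec
    have : φ 17 = 1 + α ^ 4 := by
      unfold φ
      simp [Finset.sum_range_succ, Nat.testBit]
    rw [this]
    linear_combination h - (α ^ 9) * h2
  rw [h17]
  unfold φ
  rw [Finset.sum_range_succ', Finset.mul_sum, Finset.sum_range_succ (n := 8)]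
  have h0 : (2 * v).testBit 0 = false := by simp [Nat.testBit]
  rw [h0]
  have hs : ∀ k, (2 * v).testBit (k + 1) = v.testBit k := by
    intro k
    rw [Nat.testBit_succ]
    congr 1
    omega
  simp only [hs]
  simp only [Bool.false_eq_true, if_false, add_zero]
  congr 1
  · refine Finset.sum_congr rfl fun i _ => ?_
    split_ifs
    · ring
    · ring
  · split_ifs
    · ring
    · ring

/-- the computational step -/
def step (v : ℕ) : ℕ := ((2 * v) ^^^ (if v.testBit 8 then 17 else 0)) % 512

lemma φ_step (v : ℕ) : φ (step v) = α * φ v := by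
  unfold step
  rw [φ_mod, φ_xor, ← φ_double]
  congr 1
  split_ifs
  · rfl
  · simp [φ]

lemma tbl_zero : tbl 0 = 1 := by decide +kernel

lemma tbl_step : ∀ e : Fin 510, tbl (e.val + 1) = step (tbl e.val) := by decide +kernel

lemma φ_one : φ 1 = 1 := by
  unfold φ
  simp [Finset.sum_range_succ, Nat.testBit]

lemma φ_zero : φ 0 = 0 := by
  unfold φ
  simp

lemma φ_tbl (e : ℕ) (he : e < 511) : φ (tbl e) = α ^ e := by
  induction e with
  | zero => rw [tbl_zero, φ_one, pow_zero]
  | succ n ih =>
    have := tbl_step ⟨n, by omega⟩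
    simp only at this
    rw [this, φ_step, ih (by omega), pow_succ]
    ring

lemma α_pow (e : ℕ) : α ^ e = φ (tbl (e % 511)) := by
  rw [φ_tbl _ (Nat.mod_lt _ (by norm_num))]
  conv_lhs => rw [← Nat.div_add_mod e 511, pow_add, pow_mul, α_pow_511, one_pow, one_mul]

lemma α_pow7_ne : α ^ 7 ≠ 1 := by
  intro h7
  have h := α_spec
  have h2 := two_K
  have : (1 : K) = 0 := by
    linear_combination (1 + α^3 + α^4 + α^5 + α^6) * h + (α^3 + α^5 + α^6 + α^7 + α^8) * h7
      - ((α^3 + α^4 + α^5 + α^6 + α^7 + α^8 + α^9 + α^10 + α^12 + α^13 + α^14 + α^15)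
        - (α^3 + α^5 + α^6 + α^7 + α^8)) * h2
  exact one_ne_zero this

lemma α_pow73_ne : α ^ 73 ≠ 1 := by
  intro h73
  have h := α_spec
  have h2 := two_K
  rw [α_pow 73] at h73
  have ht : tbl (73 % 511) = 336 := by decide +kernel
  have h336 : φ 336 = α ^ 4 + α ^ 6 + α ^ 8 := by
    unfold φ
    simp [Finset.sum_range_succ, Nat.testBit]
  rw [ht, h336] at h73
  have : (1 : K) = 0 := by
    linear_combination (1 + α^2 + α^3) * h + (α^2 + α^3 + α^4) * h73
      - ((α^2 + α^3 + α^4 + α^6 + α^7 + α^8 + α^9 + α^10 + α^11 + α^12)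
        - (α^2 + α^3 + α^4)) * h2
  exact one_ne_zero this

theorem α_primitive : IsPrimitiveRoot α 511 := by
  have ho : orderOf α = 511 := by
    refine orderOf_eq_of_pow_and_pow_div_prime (by norm_num) α_pow_511 ?_
    intro p hp hd
    have h511 : (511 : ℕ) = 7 * 73 := by norm_num
    rw [h511] at hd
    rcases (Nat.Prime.dvd_mul hp).1 hd with h | h
    · have := (Nat.prime_dvd_prime_iff_eq hp (by norm_num)).1 h
      subst this
      norm_num
      exact α_pow73_ne
    · have := (Nat.prime_dvd_prime_iff_eq hp (by norm_num)).1 h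
      subst this
      norm_num
      exact α_pow7_ne
  rw [← ho]
  exact IsPrimitiveRoot.orderOf α

/-- xor of the nine conjugates of `α ^ (7 * j)` -/
def trBits (j : ℕ) : ℕ :=
  tbl ((7 * j) % 511) ^^^ tbl ((14 * j) % 511) ^^^ tbl ((28 * j) % 511) ^^^ tbl ((56 * j) % 511) ^^^
  tbl ((112 * j) % 511) ^^^ tbl ((224 * j) % 511) ^^^ tbl ((448 * j) % 511) ^^^
  tbl ((896 * j) % 511) ^^^ tbl ((1792 * j) % 511)

lemma trace_eq (j : ℕ) :
    algebraMap (ZMod 2) K (Algebra.trace (ZMod 2) K (α ^ (7 * j))) = φ (trBits j) := by
  rw [FiniteField.algebraMap_trace_eq_sum_pow, GaloisField.finrank 2 (by norm_num)]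
  have hc : Nat.card (ZMod 2) = 2 := by simp
  rw [hc]
  unfold trBits
  simp only [φ_xor, ← α_pow, Finset.sum_range_succ, Finset.sum_range_zero, ← pow_mul]
  ring

lemma trBits_spec : ∀ j : Fin 511, trBits j.val = 0 ∨ trBits j.val = 1 := by decide +kernel

lemma trBits_count : (Finset.univ.filter (fun j : Fin 511 => trBits j.val = 1)).card = 196 := by
  decide +kernel

end Pool.Agent.H652R3.GF512
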