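import Pool.Agent.H652R3.CocyclicProfile

/-!
# A Goethals-Seidel matrix of order 28 with non-constant row 4-profile
-/

set_option autoImplicit false

namespace Pool.Agent.H652R3

/-- the 28 rows of the matrix, 28 bits each, packed in one number -/
def bigRows : ℕ := 21997579425584092978907279684766346671875755583015943153050664063563241330592108095207534964669846598427862723647698497891696915869004549845108759196563408229567707097284953921992343906750915668983477569579563211996759201815939716687177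

/-- popcounts of 7-bit numbers, 3 bits each -/
def popTable : ℕ := 38688605477795291639177638255174619524745213742638081737860757693208305674782301095493395244431646846014899907793992

/-- row `i` as a 28-bit number -/
def rowBits (i : Fin 4 × Fin 7) : ℕ := (bigRows >>> (28 * (7 * i.1.val + i.2.val))) % 268435456

/-- popcount of a 7-bit number -/
def pop7 (c : ℕ) : ℕ := (popTable >>> (3 * c)) % 8

/-- popcount of a 28-bit number -/
def pop28 (v : ℕ) : ℕ :=
  pop7 (v % 128) + pop7 ((v >>> 7) % 128) + pop7 ((v >>> 14) % 128) + pop7 ((v >>> 21) % 128)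

/-- the square of `14 - p` computed in `ℕ` -/
def sq14 (p : ℕ) : ℕ := (14 - p) * (14 - p) + (p - 14) * (p - 14)

/-- sign of a bit -/
def sgn (b : Bool) : ℤ := if b then -1 else 1

lemma sgn_xor (a b : Bool) : sgn (a ^^ b) = sgn a * sgn b := by
  cases a <;> cases b <;> rfl

lemma pop7_spec : ∀ c : Fin 128, (∑ j : Fin 7, sgn (c.val.testBit j.val)) = 7 - 2 * (pop7 c.val : ℤ) := by
  decide +kernel

lemma sum_sgn_block (v k : ℕ) :
    (∑ j : Fin 7, sgn (v.testBit (7 * k + j.val))) = 7 - 2 * (pop7 ((v >>> (7 * k)) % 128) : ℤ) := by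
  have h := pop7_spec ⟨(v >>> (7 * k)) % 128, Nat.mod_lt _ (by norm_num)⟩
  rw [← h]
  refine Finset.sum_congr rfl fun j _ => ?_
  have h128 : (128 : ℕ) = 2 ^ 7 := by norm_num
  simp only
  rw [h128, Nat.testBit_mod_two_pow, Nat.testBit_shiftRight]
  simp [j.isLt]

lemma sum_sgn (v : ℕ) :
    (∑ j : Fin 4 × Fin 7, sgn (v.testBit (7 * j.1.val + j.2.val))) = 28 - 2 * (pop28 v : ℤ) := by
  rw [Fintype.sum_prod_type]
  simp only [sum_sgn_block]
  rw [Fin.sum_univ_four]
  simp only [pop28, Nat.cast_add]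
  norm_num
  ring

lemma pow4_eq (p : ℕ) : ((28 : ℤ) - 2 * (p : ℤ)) ^ 4 = ((16 * (sq14 p * sq14 p) : ℕ) : ℤ) := by
  unfold sq14
  rcases Nat.le_total p 14 with h | h
  · obtain ⟨k, hk⟩ := Nat.exists_eq_add_of_le h
    have h1 : 14 - p = k := by omega
    have h2 : p - 14 = 0 := by omega
    rw [h1, h2]
    have h3 : (p : ℤ) = 14 - k := by omega
    rw [h3]
    push_cast
    ring
  · obtain ⟨k, hk⟩ := Nat.exists_eq_add_of_le h
    have h1 : 14 - p = 0 := by omega
    have h2 : p - 14 = k := by omega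
    rw [h1, h2]
    have h3 : (p : ℤ) = 14 + k := by omega
    rw [h3]
    push_cast
    ring

/-- the profile as a natural number sum -/
def natProfile (i : Fin 4 × Fin 7) : ℕ :=
  ∑ a : Fin 4 × Fin 7, ∑ b : Fin 4 × Fin 7, ∑ c : Fin 4 × Fin 7,
    sq14 (pop28 (rowBits i ^^^ rowBits a ^^^ rowBits b ^^^ rowBits c)) *
    sq14 (pop28 (rowBits i ^^^ rowBits a ^^^ rowBits b ^^^ rowBits c))

lemma rowProfile_eq (H : Fin 4 × Fin 7 → Fin 4 × Fin 7 → ℤ)
    (hH : ∀ i j, H i j = sgn ((rowBits i).testBit (7 * j.1.val + j.2.val))) (i : Fin 4 × Fin 7) :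
    rowProfile H i = ((16 * natProfile i : ℕ) : ℤ) := by
  unfold rowProfile natProfile
  rw [Finset.mul_sum, Nat.cast_sum]
  refine Finset.sum_congr rfl fun a _ => ?_
  rw [Finset.mul_sum, Nat.cast_sum]
  refine Finset.sum_congr rfl fun b _ => ?_
  rw [Finset.mul_sum, Nat.cast_sum]
  refine Finset.sum_congr rfl fun c _ => ?_
  rw [← pow4_eq, ← sum_sgn]
  congr 1
  refine Finset.sum_congr rfl fun j _ => ?_
  rw [hH, hH, hH, hH, ← sgn_xor, ← sgn_xor, ← sgn_xor]
  simp only [Nat.testBit_xor]

end Pool.Agent.H652R3
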